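import Pool.Agent.TH117.BL.Defs
import Pool.Agent.W495.FM.HomDefs

/-!
# Towers of abelian varieties with CM fields of two-power degree and inert prime numbers: definitions
-/

set_option autoImplicit false

namespace Pool.Agent.T6.H22.IT

open NumberField Module Pool.Agent.W495.TA Pool.Agent.W495.FM Pool.Agent.TH117.BL

/-- The degree of `K` is smaller than `2 ^ (k + 1)`, or the prime number `ℓ` is unramified in `K` and
`2 ^ (k + 1)` does not divide any residue degree of `ℓ` in `K`. -/
def IsThin (ℓ k : ℕ) (K : Type) [Field K] [NumberField K] : Prop :=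
  finrank ℚ K < 2 ^ (k + 1) ∨ (¬ (ℓ : ℤ) ∣ discr K ∧ ∀ P : Ideal (𝓞 K), P.IsPrime →
    (ℓ : 𝓞 K) ∈ P → ∀ f : ℕ, Nat.card (𝓞 K ⧸ P) = ℓ ^ f → ¬ 2 ^ (k + 1) ∣ f)

variable {p : ℕ} [Fact p.Prime] {ν : PadicAlgCl p ≃+* ℂ}

/-- The CM field of the factor of `Z` with the index `i` has degree `2 ^ (k + 1)`, and some prime number
`ℓ` is inert in it; the degrees of the CM fields of the factors in `T` are smaller than `2 ^ (k + 1)`, or
`ℓ` is unramified in them and no residue degree is divisible by `2 ^ (k + 1)`. -/
def IsInertOver (Z : RedAV p ν) (i : Z.X.I) (T : Set Z.X.I) : Prop :=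
  ∃ k ℓ : ℕ, ℓ.Prime ∧ finrank ℚ (Z.X.factor i).E = 2 ^ (k + 1) ∧
    (Ideal.span {(ℓ : 𝓞 (Z.X.factor i).E)}).IsPrime ∧ ∀ j ∈ T, IsThin ℓ k (Z.X.factor j).E

/-- The sets of factors of `Z` that are obtained from a set of factors of dimension at most three whose CM
fields have pairwise different Galois closures unless they are Galois over `ℚ` (for instance elliptic
curves, or one factor of dimension at most three) by adding successively factors with CM fields of
two-power degree in which some prime number is inert. -/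
inductive IsInertTower (Z : RedAV p ν) : Set Z.X.I → Prop
  | small (T : Set Z.X.I) : (∀ i ∈ T, finrank ℚ (Z.X.factor i).E ≤ 6) →
      (∀ i ∈ T, ∀ k ∈ T, i ≠ k → IntermediateField.normalClosure ℚ (Z.X.factor i).E ℂ =
        IntermediateField.normalClosure ℚ (Z.X.factor k).E ℂ → IsGalois ℚ (Z.X.factor i).E) →
      IsInertTower Z T
  | add (i : Z.X.I) (T : Set Z.X.I) : IsInertTower Z T → i ∉ T → IsInertOver Z i T →
      IsInertTower Z (insert i T)

/-- The abelian variety `Y` is, over an algebraic closure, isogenous to a product of a supersingular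
abelian variety and of powers of the factors of a tower `Z`. -/
def IsInertTowerType (Y : RedAV p ν) : Prop :=
  ∃ Z : RedAV p ν, IsInertTower Z Set.univ ∧ IsPowersTimesSupersingular Z Y

/-- The groups of motivic and of `ℓ`-adic homology of `X` are those of an abelian variety `Y` as
above. -/
def IsInertTowerAbelian {Ω V : Type} [Field Ω] [CharZero Ω] (p : ℕ) [Fact p.Prime]
    (ν : PadicAlgCl p ≃+* ℂ) (T : Homology Ω V) (X : V) : Prop :=
  ∃ (Y : RedAV p ν) (C : Cycles Ω Y) (M : Motivic C) (g : ℕ), IsInertTowerType Y ∧ IsChow C ∧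
    IsMotivic M ∧ IsAbelian T X M g

end Pool.Agent.T6.H22.IT
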