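import Pool.Agent.T6.H22.IT.Frob
import Pool.Agent.T6.H22.IT.Defs

/-!
# Automorphisms of the complex numbers given by inert prime numbers
-/

set_option autoImplicit false

namespace Pool.Agent.T6.H22.IT

open NumberField Module

/-- The embedding `σ ∘ φ`. -/
def cmp {K : Type} [Field K] (σ : ℂ ≃+* ℂ) (φ : K →+* ℂ) : K →+* ℂ := (σ : ℂ →+* ℂ).comp φ

section basic

variable {K : Type} [Field K]

theorem cmp_mul (σ τ : ℂ ≃+* ℂ) (φ : K →+* ℂ) : cmp (σ * τ) φ = cmp σ (cmp τ φ) := rfl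

theorem cmp_one (φ : K →+* ℂ) : cmp 1 φ = φ := rfl

theorem cmp_injective (σ : ℂ ≃+* ℂ) : Function.Injective (cmp σ : (K →+* ℂ) → (K →+* ℂ)) := by
  intro φ ψ h
  ext x
  exact σ.injective (RingHom.congr_fun h x)

theorem cmp_pow_succ (σ : ℂ ≃+* ℂ) (m : ℕ) (φ : K →+* ℂ) :
    cmp (σ ^ (m + 1)) φ = cmp σ (cmp (σ ^ m) φ) := by
  rw [pow_succ', cmp_mul]

theorem cmp_pow (σ : ℂ ≃+* ℂ) (m : ℕ) (φ : K →+* ℂ) : cmp (σ ^ m) φ = (cmp σ)^[m] φ := by
  induction m with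
  | zero => rfl
  | succ m ih => rw [cmp_pow_succ, ih, Function.iterate_succ_apply']

theorem cmp_pow_mul_fix {σ : ℂ ≃+* ℂ} {f : ℕ} {φ : K →+* ℂ} (h : cmp (σ ^ f) φ = φ) (m : ℕ) :
    cmp (σ ^ (f * m)) φ = φ := by
  induction m with
  | zero => rfl
  | succ m ih => rw [mul_add, mul_one, pow_add, cmp_mul, h, ih]

variable [NumberField K]

/-- Small degree. -/
theorem exists_period_small {N : ℕ} (hK : finrank ℚ K < N) (σ : ℂ ≃+* ℂ) (φ : K →+* ℂ) :
    ∃ f, 0 < f ∧ ¬ N ∣ f ∧ cmp (σ ^ f) φ = φ := by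
  classical
  have h0 : ∃ a ∈ Finset.range (finrank ℚ K + 1), ∃ b ∈ Finset.range (finrank ℚ K + 1),
      a ≠ b ∧ cmp (σ ^ a) φ = cmp (σ ^ b) φ := by
    apply Finset.exists_ne_map_eq_of_card_lt_of_maps_to (t := (Finset.univ : Finset (K →+* ℂ)))
    · rw [Finset.card_univ, Embeddings.card, Finset.card_range]
      omega
    · intro a _
      exact Finset.mem_coe.2 (Finset.mem_univ _)
  obtain ⟨a, ha, b, hb, hab, h⟩ := h0
  rw [Finset.mem_range] at ha hb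
  have key : ∀ a b : ℕ, a < b → b < finrank ℚ K + 1 → cmp (σ ^ a) φ = cmp (σ ^ b) φ →
      ∃ f, 0 < f ∧ ¬ N ∣ f ∧ cmp (σ ^ f) φ = φ := by
    intro a b hlt hb h
    refine ⟨b - a, by omega, fun hd => ?_, ?_⟩
    · have := Nat.le_of_dvd (by omega) hd
      omega
    · have h1 : σ ^ b = σ ^ a * σ ^ (b - a) := by
        rw [← pow_add]
        congr 1
        omega
      rw [h1, cmp_mul] at h
      exact (cmp_injective _ h).symm
  rcases lt_or_gt_of_ne hab with h1 | h1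
  · exact key a b h1 hb h
  · exact key b a h1 ha h.symm

end basic

theorem dvd_of_not_dvd {k f : ℕ} (hf : 0 < f) (h : ¬ 2 ^ (k + 1) ∣ f) :
    ∃ m, Odd m ∧ f ∣ 2 ^ k * m := by
  obtain ⟨a, m, hm, rfl⟩ := Nat.exists_eq_two_pow_mul_odd hf.ne'
  refine ⟨m, hm, ?_⟩
  apply Nat.mul_dvd_mul_right
  apply Nat.pow_dvd_pow
  by_contra h1
  exact h ((Nat.pow_dvd_pow 2 (by omega)).trans (Nat.dvd_mul_right _ _))

section main

variable {ι : Type} [Fintype ι] (E : ι → Type) [∀ i, Field (E i)] [∀ i, NumberField (E i)]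

/-- The automorphism given by an inert prime number. -/
theorem exists_sigma (i : ι) (T : Set ι) {k ℓ : ℕ} (hℓ : ℓ.Prime)
    (hi : (Ideal.span {(ℓ : 𝓞 (E i))}).IsPrime) (hT : ∀ j ∈ T, IsThin ℓ k (E j)) :
    ∃ (σ : ℂ ≃+* ℂ) (M : ℕ), Odd M ∧
      (∀ (φ : E i →+* ℂ) (m : ℕ), m ≠ 0 → cmp (σ ^ m) φ = φ → finrank ℚ (E i) ≤ m) ∧
      ∀ j ∈ T, ∀ ψ : E j →+* ℂ, cmp (σ ^ (2 ^ k * M)) ψ = ψ := by
  classical
  obtain ⟨L, _, _, j, hj⟩ := Pool.Agent.H204R3.CM.exists_galois E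
  have : Fact ℓ.Prime := ⟨hℓ⟩
  obtain ⟨Q, g, hg⟩ := exists_frob (L := L) ℓ
  obtain ⟨σ, hσ⟩ := Pool.Agent.H977R3.CM.exists_aut j (g : L ≃+* L)
  have hcmp : ∀ (K : Type) [Field K] (m : ℕ) (φ : K →+* L),
      cmp (σ ^ m) (j.comp φ) = j.comp (((g ^ m : L ≃ₐ[ℚ] L) : L →+* L).comp φ) := by
    intro K _ m φ
    induction m with
    | zero => rfl
    | succ m ih =>
      rw [cmp_pow_succ, ih]
      ext x
      change σ (j ((g ^ m) (φ x))) = j ((g ^ (m + 1)) (φ x))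
      rw [hσ, pow_succ']
      rfl
  have hper : ∀ jj ∈ T, ∀ ψ : E jj →+* ℂ, ∃ f, 0 < f ∧ ¬ 2 ^ (k + 1) ∣ f ∧
      cmp (σ ^ f) ψ = ψ := by
    intro jj hjj ψ
    rcases hT jj hjj with h | ⟨h1, h2⟩
    · exact exists_period_small h σ ψ
    · obtain ⟨φ, rfl⟩ := hj jj ψ
      have hQp := hg.prime
      have hPp : (Q.comap (mp φ)).IsPrime := Ideal.comap_isPrime _ _
      have hmem : (ℓ : 𝓞 (E jj)) ∈ Q.comap (mp φ) := by
        rw [Ideal.mem_comap, map_natCast]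
        exact hg.mem
      have hne : Q.comap (mp φ) ≠ ⊥ := by
        intro h0
        rw [h0, Ideal.mem_bot] at hmem
        exact hℓ.ne_zero (by exact_mod_cast hmem)
      have hmax : (Q.comap (mp φ)).IsMaximal := hPp.isMaximal hne
      have hfin : Finite (𝓞 (E jj) ⧸ Q.comap (mp φ)) := Ideal.finiteQuotientOfFreeOfNeBot _ hne
      let _ : Fintype (𝓞 (E jj) ⧸ Q.comap (mp φ)) := Fintype.ofFinite _
      let _ : Field (𝓞 (E jj) ⧸ Q.comap (mp φ)) := Ideal.Quotient.field _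
      have hchar : CharP (𝓞 (E jj) ⧸ Q.comap (mp φ)) ℓ := by
        have h3 : ((ℓ : ℕ) : 𝓞 (E jj) ⧸ Q.comap (mp φ)) = 0 := by
          have h4 := Ideal.Quotient.eq_zero_iff_mem.2 hmem
          rw [map_natCast] at h4
          exact h4
        obtain ⟨c, hc⟩ := CharP.exists (𝓞 (E jj) ⧸ Q.comap (mp φ))
        have h5 := (CharP.cast_eq_zero_iff (𝓞 (E jj) ⧸ Q.comap (mp φ)) c ℓ).1 h3
        rcases (Nat.dvd_prime hℓ).1 h5 with h6 | h6
        · subst h6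
          exact absurd rfl (CharP.char_ne_one (𝓞 (E jj) ⧸ Q.comap (mp φ)) 1)
        · rwa [h6] at hc
      obtain ⟨f, -, hf⟩ := FiniteField.card (𝓞 (E jj) ⧸ Q.comap (mp φ)) ℓ
      rw [← Nat.card_eq_fintype_card] at hf
      refine ⟨f, f.pos, h2 _ hPp hmem f hf, ?_⟩
      rw [hcmp, hg.fix_of_card hℓ h1 j (hj jj) φ hf]
  have hodd : ∀ jj : ι, ∀ ψ : E jj →+* ℂ, ∃ m, Odd m ∧ (jj ∈ T → cmp (σ ^ (2 ^ k * m)) ψ = ψ) := by
    intro jj ψ
    by_cases hjj : jj ∈ T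
    · obtain ⟨f, hf, hnd, hfix⟩ := hper jj hjj ψ
      obtain ⟨m, hm, n, hn⟩ := dvd_of_not_dvd hf hnd
      exact ⟨m, hm, fun _ => by rw [hn]; exact cmp_pow_mul_fix hfix n⟩
    · exact ⟨1, odd_one, fun h => absurd h hjj⟩
  choose mm hmm hfix using hodd
  refine ⟨σ, ∏ jj, ∏ ψ, mm jj ψ, ?_, ?_, ?_⟩
  · apply Finset.prod_induction _ Odd (fun _ _ h h' => h.mul h') odd_one
    intro jj _
    exact Finset.prod_induction _ Odd (fun _ _ h h' => h.mul h') odd_one fun ψ _ => hmm jj ψ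
  · intro φ m hm h
    obtain ⟨φ', rfl⟩ := hj i φ
    rw [hcmp] at h
    refine hg.le_of_fix hℓ hi φ' hm ?_
    ext x
    exact congrArg _ (j.injective (RingHom.congr_fun h x))
  · intro jj hjj ψ
    have h1 : mm jj ψ ∣ ∏ jj, ∏ ψ, mm jj ψ :=
      (Finset.dvd_prod_of_mem (mm jj) (Finset.mem_univ ψ)).trans
        (Finset.dvd_prod_of_mem (fun jj => ∏ ψ, mm jj ψ) (Finset.mem_univ jj))
    obtain ⟨c, hc⟩ := h1
    rw [hc, ← mul_assoc]
    exact cmp_pow_mul_fix (hfix jj ψ hjj) c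

end main

section conj

variable {K : Type} [Field K] [NumberField K] [IsCMField K]

theorem cmp_conj (σ : ℂ ≃+* ℂ) (φ : K →+* ℂ) :
    cmp σ (ComplexEmbedding.conjugate φ) = ComplexEmbedding.conjugate (cmp σ φ) := by
  ext x
  have h4 : ComplexEmbedding.conjugate φ x = φ (IsCMField.complexConj K x) := by
    rw [ComplexEmbedding.conjugate_coe_eq, IsCMField.complexEmbedding_complexConj]
  have h5 : ComplexEmbedding.conjugate (cmp σ φ) x = (cmp σ φ) (IsCMField.complexConj K x) := by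
    rw [ComplexEmbedding.conjugate_coe_eq, IsCMField.complexEmbedding_complexConj]
  rw [h5]
  change σ (ComplexEmbedding.conjugate φ x) = σ (φ (IsCMField.complexConj K x))
  rw [h4]

/-- A transitive cyclic group of even order acts on the embeddings: half of the cycle is the complex
conjugation. -/
theorem cycle {N : ℕ} (hN : finrank ℚ K = 2 * N) {σ : ℂ ≃+* ℂ}
    (h : ∀ (φ : K →+* ℂ) (m : ℕ), m ≠ 0 → cmp (σ ^ m) φ = φ → finrank ℚ K ≤ m) :
    (∀ φ ψ : K →+* ℂ, ∃ m < 2 * N, cmp (σ ^ m) φ = ψ) ∧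
      ∀ φ : K →+* ℂ, cmp (σ ^ N) φ = ComplexEmbedding.conjugate φ := by
  classical
  have hinj : ∀ φ : K →+* ℂ, Function.Injective (fun m : Fin (2 * N) => cmp (σ ^ (m : ℕ)) φ) := by
    intro φ a b hab
    by_contra hne
    have key : ∀ a b : Fin (2 * N), a < b → cmp (σ ^ (a : ℕ)) φ = cmp (σ ^ (b : ℕ)) φ → False := by
      intro a b hlt hab
      have h1 : σ ^ (b : ℕ) = σ ^ (a : ℕ) * σ ^ ((b : ℕ) - a) := by
        rw [← pow_add]
        congr 1
        have : (a : ℕ) < b := hlt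
        omega
      rw [h1, cmp_mul] at hab
      have h2 := h φ ((b : ℕ) - a) (by have : (a : ℕ) < b := hlt; omega)
        (cmp_injective _ hab).symm
      have h3 := b.2
      omega
    rcases lt_or_gt_of_ne hne with h1 | h1
    · exact key a b h1 hab
    · exact key b a h1 hab.symm
  have hsurj : ∀ φ : K →+* ℂ, Function.Surjective (fun m : Fin (2 * N) => cmp (σ ^ (m : ℕ)) φ) := by
    intro φ
    exact ((Fintype.bijective_iff_injective_and_card _).2 ⟨hinj φ, by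
      rw [Fintype.card_fin, Embeddings.card, hN]⟩).2
  have htr : ∀ φ ψ : K →+* ℂ, ∃ m < 2 * N, cmp (σ ^ m) φ = ψ := by
    intro φ ψ
    obtain ⟨m, hm⟩ := hsurj φ ψ
    exact ⟨m, m.2, hm⟩
  refine ⟨htr, fun φ => ?_⟩
  obtain ⟨t, ht, htφ⟩ := htr φ (ComplexEmbedding.conjugate φ)
  have hpc : ∀ (m : ℕ) (ψ : K →+* ℂ), cmp (σ ^ m) (ComplexEmbedding.conjugate ψ) =
      ComplexEmbedding.conjugate (cmp (σ ^ m) ψ) := fun m ψ => cmp_conj _ _
  have h2 : cmp (σ ^ (2 * t)) φ = φ := by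
    rw [two_mul, pow_add, cmp_mul, htφ, hpc, htφ]
    ext x
    simp
  have ht0 : t ≠ 0 := by
    rintro rfl
    rw [pow_zero, cmp_one] at htφ
    exact IsTotallyComplex.complexEmbedding_not_isReal φ htφ.symm
  have h3 := h φ (2 * t) (by omega) h2
  have h4 : ∃ d, t = N + d := ⟨t - N, by omega⟩
  obtain ⟨d, rfl⟩ := h4
  have hfull : cmp (σ ^ (2 * N)) φ = φ := by
    -- the cycle has length `2 N`
    obtain ⟨m, hm, hmφ⟩ := htr φ (cmp (σ ^ (2 * N)) φ)
    by_cases hm0 : m = 0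
    · subst hm0
      exact hmφ.symm
    · exfalso
      have h5 : σ ^ (2 * N) = σ ^ m * σ ^ (2 * N - m) := by
        rw [← pow_add]
        congr 1
        omega
      rw [h5, cmp_mul] at hmφ
      have h6 := h φ (2 * N - m) (by omega) (cmp_injective _ hmφ).symm
      omega
  by_cases hd : d = 0
  · subst hd
    exact htφ
  · exfalso
    have h5 : cmp (σ ^ (2 * d)) φ = φ := by
      have h6 : σ ^ (2 * (N + d)) = σ ^ (2 * d) * σ ^ (2 * N) := by
        rw [← pow_add]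
        congr 1
        ring
      rw [h6, cmp_mul, hfull] at h2
      exact h2
    have h6 := h φ (2 * d) (by omega) h5
    omega

end conj

end Pool.Agent.T6.H22.IT
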