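import Mathlib

/-!
# Modules over the ring of integral polynomials and the polynomial `X ^ (2 ^ k) + 1`
-/

set_option autoImplicit false

namespace Pool.Agent.T6.H22.IT

open Polynomial

theorem monic_phi (k : ℕ) : (X ^ 2 ^ k + 1 : ℤ[X]).Monic := by
  have h1 := monic_X_pow_add_C (1 : ℤ) (n := 2 ^ k) (by positivity)
  rwa [map_one] at h1

theorem natDegree_phi (k : ℕ) : (X ^ 2 ^ k + 1 : ℤ[X]).natDegree = 2 ^ k := by
  have h1 := natDegree_X_pow_add_C (n := 2 ^ k) (r := (1 : ℤ))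
  rwa [map_one] at h1

theorem exists_bezout (k : ℕ) {F : ℤ[X]} (hF : ¬ (X ^ 2 ^ k + 1 : ℤ[X]) ∣ F) :
    ∃ (A B : ℤ[X]) (N : ℤ), N ≠ 0 ∧ A * (X ^ 2 ^ k + 1) + B * F = C N := by
  have hirr : Irreducible (X ^ 2 ^ k + 1 : ℚ[X]) := by
    have h1 := cyclotomic.irreducible_rat (n := 2 ^ (k + 1)) (by positivity)
    rw [cyclotomic_prime_pow_eq_geom_sum Nat.prime_two] at h1
    simpa [Finset.sum_range_succ, add_comm] using h1
  have hmap : (X ^ 2 ^ k + 1 : ℤ[X]).map (Int.castRingHom ℚ) = X ^ 2 ^ k + 1 := by simp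
  have hnd : ¬ (X ^ 2 ^ k + 1 : ℚ[X]) ∣ F.map (Int.castRingHom ℚ) := by
    intro h
    rw [← hmap] at h
    exact hF ((map_dvd_map (Int.castRingHom ℚ) (RingHom.injective_int _) (monic_phi k)).1 h)
  obtain ⟨a, b, hab⟩ := (hirr.coprime_iff_not_dvd).2 hnd
  obtain ⟨c, hc0, hc⟩ := IsLocalization.integerNormalization_spec (nonZeroDivisors ℤ) a
  obtain ⟨d, hd0, hd⟩ := IsLocalization.integerNormalization_spec (nonZeroDivisors ℤ) b
  refine ⟨C (d : ℤ) * IsLocalization.integerNormalization (nonZeroDivisors ℤ) a,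
    C (c : ℤ) * IsLocalization.integerNormalization (nonZeroDivisors ℤ) b, c * d,
    mul_ne_zero (nonZeroDivisors.ne_zero hc0) (nonZeroDivisors.ne_zero hd0), ?_⟩
  apply map_injective (Int.castRingHom ℚ) (RingHom.injective_int _)
  have hc' : (IsLocalization.integerNormalization (nonZeroDivisors ℤ) a).map (Int.castRingHom ℚ) =
      C ((c : ℤ) : ℚ) * a := by
    have : (algebraMap ℤ ℚ) = Int.castRingHom ℚ := rfl
    rw [← this, hc]
    ext n
    simp
  have hd' : (IsLocalization.integerNormalization (nonZeroDivisors ℤ) b).map (Int.castRingHom ℚ) =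
      C ((d : ℤ) : ℚ) * b := by
    have : (algebraMap ℤ ℚ) = Int.castRingHom ℚ := rfl
    rw [← this, hd]
    ext n
    simp
  rw [Polynomial.map_add, Polynomial.map_mul, Polynomial.map_mul, Polynomial.map_mul,
    Polynomial.map_mul, hc', hd', hmap, map_C, map_C, map_C]
  simp only [eq_intCast, Int.cast_mul]
  have h1 : C ((d : ℤ) : ℚ) * (C ((c : ℤ) : ℚ) * a) * (X ^ 2 ^ k + 1) +
      C ((c : ℤ) : ℚ) * (C ((d : ℤ) : ℚ) * b) * F.map (Int.castRingHom ℚ) =
      C ((c : ℤ) : ℚ) * C ((d : ℤ) : ℚ) *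
        (a * (X ^ 2 ^ k + 1) + b * F.map (Int.castRingHom ℚ)) := by ring
  rw [h1, hab, mul_one, ← C_mul]

section torsion

variable {G : Type*} [AddCommGroup G]

theorem IsOfFin.zsmul_cancel {x : G} {n : ℤ} (hn : n ≠ 0) (h : IsOfFinAddOrder (n • x)) :
    IsOfFinAddOrder x := by
  rw [isOfFinAddOrder_iff_nsmul_eq_zero] at h
  obtain ⟨m, hm, h⟩ := h
  rw [isOfFinAddOrder_iff_zsmul_eq_zero]
  refine ⟨m * n, mul_ne_zero (by exact_mod_cast hm.ne') hn, ?_⟩
  rw [mul_smul, natCast_zsmul, h]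

theorem IsOfFin.map {H : Type*} [AddCommGroup H] (f : G →ₗ[ℤ] H) {x : G}
    (h : IsOfFinAddOrder x) : IsOfFinAddOrder (f x) :=
  (f.toAddMonoidHom).isOfFinAddOrder h

/-- A relation that is not a consequence of `s ^ (2 ^ k) u = - u` makes `u` a torsion element. -/
theorem torsion_of_rel (s : Module.End ℤ G) {u : G} {k : ℕ} (hs : (s ^ 2 ^ k) u = - u) {F : ℤ[X]}
    (hF : ¬ (X ^ 2 ^ k + 1 : ℤ[X]) ∣ F) (h : IsOfFinAddOrder ((aeval s F) u)) :
    IsOfFinAddOrder u := by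
  obtain ⟨A, B, N, hN, hAB⟩ := exists_bezout k hF
  apply IsOfFin.zsmul_cancel hN
  have h1 : N • u = (aeval s B) ((aeval s F) u) := by
    have h2 := congrArg (fun P => (aeval s P) u) hAB
    simp only [map_add, map_mul, map_pow, aeval_X, map_one, aeval_C, LinearMap.add_apply,
      Module.End.mul_apply, Module.End.one_apply, hs, neg_add_cancel, map_zero, zero_add] at h2
    rw [h2]
    simp
  rw [h1]
  exact IsOfFin.map _ h

end torsion

/-- Multiples of `X ^ (2 ^ k) + 1` of small degree. -/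
theorem coeff_of_dvd {n : ℕ} (hn : 0 < n) {F : ℤ[X]} (hdeg : F.natDegree < 2 * n)
    (h : (X ^ n + 1 : ℤ[X]) ∣ F) {t : ℕ} (ht : t < n) : F.coeff (t + n) = F.coeff t := by
  obtain ⟨H, rfl⟩ := h
  have hm : (X ^ n + 1 : ℤ[X]).Monic := by
    have h1 := monic_X_pow_add_C (1 : ℤ) (n := n) hn.ne'
    rwa [map_one] at h1
  have hd : (X ^ n + 1 : ℤ[X]).natDegree = n := by
    have h1 := natDegree_X_pow_add_C (n := n) (r := (1 : ℤ))
    rwa [map_one] at h1
  by_cases hH : H = 0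
  · simp [hH]
  rw [hm.natDegree_mul' hH, hd] at hdeg
  rw [add_mul, one_mul, coeff_add, coeff_add, coeff_X_pow_mul, coeff_X_pow_mul', if_neg (by omega),
    coeff_eq_zero_of_natDegree_lt (by omega : H.natDegree < t + n)]
  ring

end Pool.Agent.T6.H22.IT
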