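import Pool.Agent.T6.H22.IT.Aut
import Pool.Agent.T6.H22.IT.Pol
import Pool.Agent.T6.H36.RT

/-!
# The relations between the Frobenius eigenvalues in a tower: the step
-/

set_option autoImplicit false

namespace Pool.Agent.T6.H22.IT

open NumberField Module Pool.Agent.W495.TA Pool.Agent.TH117 Pool.Agent.TH117.BL
  Pool.Agent.T6.H36.RT Polynomial

variable {p : ℕ} [Fact p.Prime] {ν : PadicAlgCl p ≃+* ℂ} {Z : RedAV p ν}

theorem q_ne (Z : RedAV p ν) : (p : ℂ) ^ Z.a ≠ 0 :=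
  pow_ne_zero _ (Nat.cast_ne_zero.2 (Fact.out : p.Prime).ne_zero)

/-- The difference of two relations. -/
theorem rel_sub {e e₁ e₂ : Emb Z → ℕ} (he : IsRel Z e) (he₁ : IsRel Z e₁)
    (h : ∀ w, e w = e₁ w + e₂ w) : IsRel Z e₂ := by
  obtain ⟨s, hs, hrel⟩ := he
  obtain ⟨s₁, hs₁, hrel₁⟩ := he₁
  refine ⟨s * s₁, Nat.mul_pos hs hs₁, ?_⟩
  have h1 : ∏ w, eig Z w ^ e w = (∏ w, eig Z w ^ e₁ w) * ∏ w, eig Z w ^ e₂ w := by
    rw [← Finset.prod_mul_distrib]
    exact Finset.prod_congr rfl fun w _ => by rw [h, pow_add]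
  have h2 : ∑ w, e w = ∑ w, e₁ w + ∑ w, e₂ w := by
    rw [← Finset.sum_add_distrib]
    exact Finset.sum_congr rfl fun w _ => h w
  rw [h1, h2, mul_pow] at hrel
  have h3 := congrArg (fun x => x ^ s₁) hrel
  simp only [mul_pow, ← pow_mul] at h3
  have h4 : (∏ w, eig Z w ^ e₁ w) ^ (2 * s * s₁) = (p : ℂ) ^ (Z.a * (s * s₁ * ∑ w, e₁ w)) := by
    have h5 := congrArg (fun x => x ^ s) hrel₁
    simp only [← pow_mul] at h5
    rw [show 2 * s * s₁ = 2 * s₁ * s by ring, h5]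
    congr 1
    ring
  rw [h4] at h3
  have h6 : (p : ℂ) ^ (Z.a * (s * (∑ w, e₁ w + ∑ w, e₂ w)) * s₁) =
      (p : ℂ) ^ (Z.a * (s * s₁ * ∑ w, e₁ w)) * (p : ℂ) ^ (Z.a * (s * s₁ * ∑ w, e₂ w)) := by
    rw [← pow_add]
    congr 1
    ring
  have h7 : (p : ℂ) ^ (Z.a * (s * (∑ w, e₁ w + ∑ w, e₂ w)) * s₁) =
      ((p : ℂ) ^ (Z.a * (s * (∑ w, e₁ w + ∑ w, e₂ w)))) ^ s₁ := pow_mul _ _ _
  have hp0 : (p : ℂ) ≠ 0 := Nat.cast_ne_zero.2 (Fact.out : p.Prime).ne_zero
  rw [← pow_mul, show 2 * (s * s₁) = 2 * s * s₁ by ring]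
  exact mul_left_cancel₀ (pow_ne_zero _ hp0) (h3.trans h6)

/-- Symmetric exponents. -/
theorem sym_rel {e : Emb Z → ℕ} (h : ∀ w, e (cj w) = e w) : IsRel Z e := by
  refine ⟨1, one_pos, ?_⟩
  let ec : Emb Z ≃ Emb Z := ⟨cj, cj, cj_cj, cj_cj⟩
  have h3 : ∏ w, eig Z w ^ e w = ∏ w, eig Z (cj w) ^ e w := by
    rw [← Equiv.prod_comp ec]
    refine Finset.prod_congr rfl (fun w _ => ?_)
    show eig Z (cj w) ^ e (cj w) = _
    rw [h]
  rw [mul_one, one_mul, pow_two]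
  nth_rewrite 2 [h3]
  rw [← Finset.prod_mul_distrib, ← Finset.prod_pow_eq_pow_sum]
  refine Finset.prod_congr rfl (fun w _ => ?_)
  rw [← mul_pow, eig_cj]

/-- The twisted product over one factor. -/
noncomputable def fac (Z : RedAV p ν) (e : Emb Z → ℕ) (j : Z.X.I) : ℂ :=
  ∏ φ : (Z.X.factor j).E →+* ℂ,
    eig Z ⟨j, φ⟩ ^ ((e ⟨j, φ⟩ : ℤ) - e ⟨j, ComplexEmbedding.conjugate φ⟩)

theorem fac_ne (Z : RedAV p ν) (e : Emb Z → ℕ) (j : Z.X.I) : fac Z e j ≠ 0 :=
  Finset.prod_ne_zero_iff.2 fun _ _ => zpow_ne_zero _ (eig_ne _)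

theorem total {e : Emb Z → ℕ} (he : IsRel Z e) : ∃ s : ℕ, 0 < s ∧ (∏ j, fac Z e j) ^ s = 1 := by
  obtain ⟨s, hs, hrel⟩ := he
  refine ⟨s, hs, ?_⟩
  have h0 : ∏ j, fac Z e j = ∏ w : Emb Z, eig Z w ^ ((e w : ℤ) - e (cj w)) := by
    rw [Fintype.prod_sigma]
    rfl
  have hC : ∏ w : Emb Z, eig Z w ^ ((e w : ℤ) - e (cj w))
      = (∏ w, eig Z w ^ e w) ^ 2 / ((p : ℂ) ^ Z.a) ^ (∑ w, e w) := by
    have h1 : ∏ w : Emb Z, eig Z w ^ ((e w : ℤ) - e (cj w))
        = (∏ w, eig Z w ^ e w) / ∏ w, eig Z w ^ e (cj w) := by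
      rw [← Finset.prod_div_distrib]
      refine Finset.prod_congr rfl (fun w _ => ?_)
      rw [zpow_sub₀ (eig_ne w), zpow_natCast, zpow_natCast]
    have h2 : (∏ w, eig Z w ^ e (cj w)) * ∏ w, eig Z w ^ e w = ((p : ℂ) ^ Z.a) ^ (∑ w, e w) := by
      let ec : Emb Z ≃ Emb Z := ⟨cj, cj, cj_cj, cj_cj⟩
      have h3 : ∏ w, eig Z w ^ e (cj w) = ∏ w, eig Z (cj w) ^ e w := by
        rw [← Equiv.prod_comp ec]
        refine Finset.prod_congr rfl (fun w _ => ?_)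
        show eig Z (cj w) ^ e (cj (cj w)) = _
        rw [cj_cj]
      rw [h3, ← Finset.prod_mul_distrib, ← Finset.prod_pow_eq_pow_sum]
      refine Finset.prod_congr rfl (fun w _ => ?_)
      rw [← mul_pow, mul_comm, eig_cj]
    have h3 : (∏ w, eig Z w ^ e w) ≠ 0 :=
      Finset.prod_ne_zero_iff.2 (fun w _ => pow_ne_zero _ (eig_ne w))
    rw [h1, ← h2]
    field_simp
  rw [h0, hC, div_pow, ← pow_mul, hrel, ← pow_mul ((p : ℂ) ^ Z.a), mul_comm (∑ w, e w) s,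
    div_self (pow_ne_zero _ (q_ne Z))]

theorem map_fac (e : Emb Z → ℕ) (j : Z.X.I) (τ : ℂ ≃+* ℂ) : τ (fac Z e j) =
    ∏ φ : (Z.X.factor j).E →+* ℂ,
      eig Z ⟨j, cmp τ φ⟩ ^ ((e ⟨j, φ⟩ : ℤ) - e ⟨j, ComplexEmbedding.conjugate φ⟩) := by
  unfold fac
  rw [map_prod]
  exact Finset.prod_congr rfl fun φ _ => map_zpow₀ _ _ _

theorem map_fac_fix (e : Emb Z → ℕ) {j : Z.X.I} {τ : ℂ ≃+* ℂ}
    (h : ∀ φ : (Z.X.factor j).E →+* ℂ, cmp τ φ = φ) : τ (fac Z e j) = fac Z e j := by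
  rw [map_fac]
  exact Finset.prod_congr rfl fun φ _ => by rw [h]

theorem map_fac_conj (e : Emb Z → ℕ) {j : Z.X.I} {τ : ℂ ≃+* ℂ}
    (h : ∀ φ : (Z.X.factor j).E →+* ℂ, cmp τ φ = ComplexEmbedding.conjugate φ) :
    τ (fac Z e j) = (fac Z e j)⁻¹ := by
  rw [map_fac]
  unfold fac
  rw [← Finset.prod_inv_distrib]
  let ec : ((Z.X.factor j).E →+* ℂ) ≃ ((Z.X.factor j).E →+* ℂ) :=
    (ComplexEmbedding.involutive_conjugate (Z.X.factor j).E).toPerm
  rw [← Equiv.prod_comp ec]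
  refine Finset.prod_congr rfl fun φ _ => ?_
  have h1 : ec φ = ComplexEmbedding.conjugate φ := rfl
  have h2 : ComplexEmbedding.conjugate (ComplexEmbedding.conjugate φ) = φ :=
    ComplexEmbedding.involutive_conjugate _ φ
  rw [h1, h, h2, ← zpow_neg, neg_sub]

theorem fac_torsion {i : Z.X.I} {T : Set Z.X.I} {e : Emb Z → ℕ} (he : IsRel Z e)
    (hsupp : ∀ w, e w ≠ 0 → w.1 ∈ insert i T) {τ : ℂ ≃+* ℂ}
    (h1 : ∀ φ : (Z.X.factor i).E →+* ℂ, cmp τ φ = ComplexEmbedding.conjugate φ)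
    (h2 : ∀ j ∈ T, ∀ ψ : (Z.X.factor j).E →+* ℂ, cmp τ ψ = ψ) :
    ∃ s : ℕ, 0 < s ∧ fac Z e i ^ s = 1 := by
  classical
  obtain ⟨s, hs, htot⟩ := total he
  refine ⟨2 * s, by omega, ?_⟩
  rw [← Finset.mul_prod_erase Finset.univ _ (Finset.mem_univ i)] at htot
  set R := ∏ j ∈ Finset.univ.erase i, fac Z e j with hR
  have hτR : τ R = R := by
    rw [hR, map_prod]
    refine Finset.prod_congr rfl fun j hj => ?_
    have hji : j ≠ i := (Finset.mem_erase.1 hj).1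
    by_cases hjT : j ∈ T
    · exact map_fac_fix e (h2 j hjT)
    · have h0 : ∀ φ : (Z.X.factor j).E →+* ℂ, e ⟨j, φ⟩ = 0 := by
        intro φ
        by_contra h3
        rcases hsupp ⟨j, φ⟩ h3 with h4 | h4
        · exact hji h4
        · exact hjT h4
      have h3 : fac Z e j = 1 := by
        unfold fac
        refine Finset.prod_eq_one fun φ _ => ?_
        rw [h0, h0, sub_self, zpow_zero]
      rw [h3, map_one]
  have h3 := congrArg τ htot
  rw [map_pow, map_mul, map_one, hτR, map_fac_conj e h1] at h3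
  have hf := fac_ne Z e i
  have hR0 : R ≠ 0 := by
    rw [hR]
    exact Finset.prod_ne_zero_iff.2 fun j _ => fac_ne Z e j
  rw [mul_pow] at h3 htot
  have h4 : fac Z e i ^ s * R ^ s = ((fac Z e i)⁻¹) ^ s * R ^ s := htot.trans h3.symm
  have h5 := mul_right_cancel₀ (pow_ne_zero s hR0) h4
  rw [inv_pow] at h5
  rw [two_mul, pow_add]
  nth_rewrite 1 [h5]
  exact inv_mul_cancel₀ (pow_ne_zero s hf)

/-- The quotient of an eigenvalue and its complex conjugate. -/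
noncomputable def U (Z : RedAV p ν) (w : Emb Z) : ℂˣ :=
  Units.mk0 (eig Z w / eig Z (cj w)) (div_ne_zero (eig_ne _) (eig_ne _))

theorem U_cj (w : Emb Z) : U Z (cj w) = (U Z w)⁻¹ := by
  ext
  simp only [U, Units.val_mk0, Units.val_inv_eq_inv_val, cj_cj, inv_div]

/-- The action of an automorphism on the multiplicative group. -/
noncomputable def act (σ : ℂ ≃+* ℂ) : Module.End ℤ (Additive ℂˣ) :=
  (MonoidHom.toAdditive (Units.map (σ : ℂ →* ℂ))).toIntLinearMap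

theorem act_U (σ : ℂ ≃+* ℂ) (i : Z.X.I) (φ : (Z.X.factor i).E →+* ℂ) :
    act σ (Additive.ofMul (U Z ⟨i, φ⟩)) = Additive.ofMul (U Z ⟨i, cmp σ φ⟩) := by
  have h1 : Units.map (σ : ℂ →* ℂ) (U Z ⟨i, φ⟩) = U Z ⟨i, cmp σ φ⟩ := by
    ext
    change σ (eig Z ⟨i, φ⟩ / eig Z (cj ⟨i, φ⟩)) = eig Z ⟨i, cmp σ φ⟩ / eig Z (cj ⟨i, cmp σ φ⟩)
    rw [map_div₀]
    congr 1
    have h2 : (cj ⟨i, cmp σ φ⟩ : Emb Z) = ⟨i, cmp σ (ComplexEmbedding.conjugate φ)⟩ := by
      rw [cmp_conj]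
      rfl
    rw [h2]
    rfl
  exact congrArg Additive.ofMul h1

theorem act_pow_U (σ : ℂ ≃+* ℂ) (i : Z.X.I) (φ : (Z.X.factor i).E →+* ℂ) (m : ℕ) :
    (act σ ^ m) (Additive.ofMul (U Z ⟨i, φ⟩)) = Additive.ofMul (U Z ⟨i, cmp (σ ^ m) φ⟩) := by
  induction m with
  | zero => rfl
  | succ m ih => rw [pow_succ', Module.End.mul_apply, ih, act_U, cmp_pow_succ]

theorem fac_eq (e : Emb Z → ℕ) (i : Z.X.I) :
    fac Z e i = ∏ φ : (Z.X.factor i).E →+* ℂ, (U Z ⟨i, φ⟩ : ℂ) ^ e ⟨i, φ⟩ := by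
  unfold fac
  have h1 : ∀ φ : (Z.X.factor i).E →+* ℂ, (U Z ⟨i, φ⟩ : ℂ) ^ e ⟨i, φ⟩ =
      eig Z ⟨i, φ⟩ ^ (e ⟨i, φ⟩ : ℤ) * (eig Z ⟨i, ComplexEmbedding.conjugate φ⟩ ^ (e ⟨i, φ⟩ : ℤ))⁻¹ := by
    intro φ
    simp only [U, Units.val_mk0, zpow_natCast, div_eq_mul_inv, mul_pow, inv_pow]
    rfl
  rw [Finset.prod_congr rfl fun φ _ => h1 φ, Finset.prod_mul_distrib]
  let ec : ((Z.X.factor i).E →+* ℂ) ≃ ((Z.X.factor i).E →+* ℂ) :=
    (ComplexEmbedding.involutive_conjugate (Z.X.factor i).E).toPerm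
  rw [← Equiv.prod_comp ec (fun φ => (eig Z ⟨i, ComplexEmbedding.conjugate φ⟩ ^ (e ⟨i, φ⟩ : ℤ))⁻¹),
    ← Finset.prod_mul_distrib]
  refine Finset.prod_congr rfl fun φ _ => ?_
  have h2 : ec φ = ComplexEmbedding.conjugate φ := rfl
  have h3 : ComplexEmbedding.conjugate (ComplexEmbedding.conjugate φ) = φ :=
    ComplexEmbedding.involutive_conjugate _ φ
  rw [h2, h3, zpow_sub₀ (eig_ne _), div_eq_mul_inv]

/-- All or nothing. -/
theorem symm_or_torsion {i : Z.X.I} {k : ℕ} (hdeg : finrank ℚ (Z.X.factor i).E = 2 ^ (k + 1))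
    {σ : ℂ ≃+* ℂ} (hσ : ∀ (φ : (Z.X.factor i).E →+* ℂ) (m : ℕ), m ≠ 0 → cmp (σ ^ m) φ = φ →
      finrank ℚ (Z.X.factor i).E ≤ m) {e : Emb Z → ℕ} {s : ℕ} (hs : 0 < s)
    (hfac : fac Z e i ^ s = 1) :
    (∀ φ : (Z.X.factor i).E →+* ℂ, e ⟨i, ComplexEmbedding.conjugate φ⟩ = e ⟨i, φ⟩) ∨
      ∃ m : ℕ, 0 < m ∧ ∀ φ : (Z.X.factor i).E →+* ℂ,
        (eig Z ⟨i, φ⟩ ^ 2) ^ m = ((p : ℂ) ^ Z.a) ^ m := by
  classical
  have hdeg' : finrank ℚ (Z.X.factor i).E = 2 * 2 ^ k := by rw [hdeg, pow_succ']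
  obtain ⟨htr, hconj⟩ := cycle hdeg' hσ
  obtain ⟨φ₀⟩ : Nonempty ((Z.X.factor i).E →+* ℂ) := inferInstance
  set N := 2 ^ k with hN
  have hN0 : 0 < N := by positivity
  set ph : ℕ → ((Z.X.factor i).E →+* ℂ) := fun t => cmp (σ ^ t) φ₀ with hph
  have hbij : Function.Bijective (fun t : Fin (2 * N) => ph t) := by
    rw [Fintype.bijective_iff_surjective_and_card]
    refine ⟨fun ψ => ?_, by rw [Fintype.card_fin, Embeddings.card, hdeg']⟩
    obtain ⟨m, hm, h⟩ := htr φ₀ ψ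
    exact ⟨⟨m, hm⟩, h⟩
  set F : ℤ[X] := ∑ t ∈ Finset.range (2 * N), monomial t (e ⟨i, ph t⟩ : ℤ) with hF
  have hcoeff : ∀ t, F.coeff t = if t < 2 * N then (e ⟨i, ph t⟩ : ℤ) else 0 := by
    intro t
    rw [hF, finsetSum_coeff]
    simp only [coeff_monomial]
    rw [Finset.sum_ite_eq' (Finset.range (2 * N)) t (fun t => (e ⟨i, ph t⟩ : ℤ))]
    simp only [Finset.mem_range]
  have hval : (aeval (act σ) F) (Additive.ofMul (U Z ⟨i, φ₀⟩)) =
      Additive.ofMul (∏ t ∈ Finset.range (2 * N), U Z ⟨i, ph t⟩ ^ e ⟨i, ph t⟩) := by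
    rw [hF, map_sum, LinearMap.sum_apply, ofMul_prod]
    refine Finset.sum_congr rfl fun t _ => ?_
    rw [aeval_monomial, Module.End.mul_apply, act_pow_U, ofMul_pow]
    simp
    rfl
  have hprod : ((∏ t ∈ Finset.range (2 * N), U Z ⟨i, ph t⟩ ^ e ⟨i, ph t⟩ : ℂˣ) : ℂ) =
      fac Z e i := by
    rw [fac_eq, Finset.prod_range, Units.coe_prod, ← hbij.prod_comp]
    refine Finset.prod_congr rfl fun t _ => ?_
    rw [Units.val_pow_eq_pow_val]
  have htors : IsOfFinAddOrder ((aeval (act σ) F) (Additive.ofMul (U Z ⟨i, φ₀⟩))) := by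
    rw [hval, isOfFinAddOrder_iff_nsmul_eq_zero]
    refine ⟨s, hs, ?_⟩
    rw [← ofMul_pow]
    apply congrArg Additive.ofMul (a₂ := (1 : ℂˣ))
    ext
    rw [Units.val_pow_eq_pow_val, hprod, hfac]
    rfl
  by_cases hdvd : (X ^ 2 ^ k + 1 : ℤ[X]) ∣ F
  · left
    have hdegF : F.natDegree < 2 * N := by
      have h1 : F.natDegree ≤ 2 * N - 1 := by
        rw [natDegree_le_iff_coeff_eq_zero]
        intro M hM
        rw [hcoeff, if_neg (by omega)]
      omega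
    have hsym : ∀ t, t < N → e ⟨i, ph (t + N)⟩ = e ⟨i, ph t⟩ := by
      intro t ht
      have h1 := coeff_of_dvd hN0 hdegF hdvd ht
      rw [hcoeff, hcoeff, if_pos (by omega), if_pos (by omega)] at h1
      exact_mod_cast h1
    have hshift : ∀ t, ph (t + N) = ComplexEmbedding.conjugate (ph t) := by
      intro t
      rw [hph]
      change cmp (σ ^ (t + N)) φ₀ = ComplexEmbedding.conjugate (cmp (σ ^ t) φ₀)
      rw [← hconj, ← cmp_mul, ← pow_add, add_comm]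
    intro φ
    obtain ⟨⟨t, ht⟩, rfl⟩ := hbij.2 φ
    change e ⟨i, ComplexEmbedding.conjugate (ph t)⟩ = e ⟨i, ph t⟩
    by_cases htN : t < N
    · rw [← hshift, hsym t htN]
    · obtain ⟨t', rfl⟩ : ∃ t', t = t' + N := ⟨t - N, by omega⟩
      rw [hshift t', ComplexEmbedding.involutive_conjugate _ (ph t'), ← hshift t',
        hsym t' (by omega)]
  · right
    have hs2 : (act σ ^ 2 ^ k) (Additive.ofMul (U Z ⟨i, φ₀⟩)) =
        - Additive.ofMul (U Z ⟨i, φ₀⟩) := by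
      rw [act_pow_U, ← ofMul_inv, ← U_cj]
      have h1 : cmp (σ ^ 2 ^ k) φ₀ = ComplexEmbedding.conjugate φ₀ := hconj φ₀
      rw [h1]
      rfl
    have h1 := torsion_of_rel (act σ) hs2 hdvd htors
    rw [isOfFinAddOrder_iff_nsmul_eq_zero] at h1
    obtain ⟨m, hm, h1⟩ := h1
    refine ⟨m, hm, fun φ => ?_⟩
    obtain ⟨⟨t, ht⟩, rfl⟩ := hbij.2 φ
    change (eig Z ⟨i, ph t⟩ ^ 2) ^ m = _
    have h2 := congrArg (act σ ^ t) h1
    rw [map_nsmul, act_pow_U, map_zero, ← ofMul_pow] at h2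
    have h3 : (U Z ⟨i, ph t⟩) ^ m = 1 := h2
    have h4 : (eig Z ⟨i, ph t⟩ / eig Z (cj ⟨i, ph t⟩)) ^ m = 1 := by
      have h5 := congrArg (Units.val) h3
      rw [Units.val_pow_eq_pow_val] at h5
      exact h5
    rw [← eig_cj (⟨i, ph t⟩ : Emb Z), pow_two, mul_pow, mul_pow]
    rw [div_pow, div_eq_one_iff_eq (pow_ne_zero _ (eig_ne _))] at h4
    rw [← h4]

open Classical in
/-- **The step.** -/
theorem elementary_insert {i : Z.X.I} {T : Set Z.X.I} (hT : HasElementaryRelationsOn Z T)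
    (h : IsInertOver Z i T) : HasElementaryRelationsOn Z (insert i T) := by
  intro e he hsupp
  obtain ⟨k, ℓ, hℓ, hdeg, hin, hthin⟩ := h
  obtain ⟨σ, M, hM, hσ, hfix⟩ := exists_sigma (fun j => (Z.X.factor j).E) i T hℓ hin hthin
  have hdeg' : finrank ℚ (Z.X.factor i).E = 2 * 2 ^ k := by rw [hdeg, pow_succ']
  obtain ⟨-, hconj⟩ := cycle hdeg' hσ
  have hconjM : ∀ φ : (Z.X.factor i).E →+* ℂ,
      cmp (σ ^ (2 ^ k * M)) φ = ComplexEmbedding.conjugate φ := by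
    obtain ⟨c, rfl⟩ := hM
    intro φ
    have h1 : ∀ c : ℕ, cmp (σ ^ (2 ^ k * (2 * c))) φ = φ := by
      intro c
      induction c with
      | zero => rfl
      | succ c ih =>
        have h2 : σ ^ (2 ^ k * (2 * (c + 1))) = σ ^ 2 ^ k * (σ ^ 2 ^ k * σ ^ (2 ^ k * (2 * c))) := by
          rw [← pow_add, ← pow_add]
          congr 1
          ring
        rw [h2, cmp_mul, cmp_mul, ih, hconj, hconj]
        exact ComplexEmbedding.involutive_conjugate _ φ
    have h2 : σ ^ (2 ^ k * (2 * c + 1)) = σ ^ 2 ^ k * σ ^ (2 ^ k * (2 * c)) := by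
      rw [← pow_add]
      congr 1
      ring
    rw [h2, cmp_mul, h1, hconj]
  obtain ⟨s, hs, hfac⟩ := fac_torsion he hsupp hconjM hfix
  set e₁ : Emb Z → ℕ := fun w => if w.1 = i then e w else 0 with he₁
  set e₂ : Emb Z → ℕ := fun w => if w.1 = i then 0 else e w with he₂
  have hadd : ∀ w, e w = e₁ w + e₂ w := by
    intro w
    simp only [he₁, he₂]
    by_cases h1 : w.1 = i
    · rw [if_pos h1, if_pos h1, add_zero]
    · rw [if_neg h1, if_neg h1, zero_add]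
  have key : IsRel Z e₁ ∧ (fun w => (e₁ w : ℤ)) ∈ AddSubgroup.closure
      {d : Emb Z → ℤ | ∃ n : Emb Z → ℕ, IsRel Z n ∧ IsElementary Z n ∧ ∀ w, d w = n w} := by
    rcases symm_or_torsion hdeg hσ hs hfac with hsym | ⟨m, hm, htor⟩
    · have hsym₁ : ∀ w, e₁ (cj w) = e₁ w := by
        rintro ⟨j, φ⟩
        simp only [he₁]
        have h1 : (cj ⟨j, φ⟩ : Emb Z).1 = j := rfl
        rw [h1]
        by_cases h2 : j = i
        · subst h2
          rw [if_pos rfl, if_pos rfl]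
          exact hsym φ
        · rw [if_neg h2, if_neg h2]
      exact ⟨sym_rel hsym₁, sym_mem _ e₁ rfl hsym₁⟩
    · have htor' : ∀ w : Emb Z, w.1 = i → (eig Z w ^ 2) ^ m = ((p : ℂ) ^ Z.a) ^ m := by
        rintro ⟨j, φ⟩ hj
        have hj' : j = i := hj
        subst hj'
        exact htor φ
      constructor
      · refine ⟨m, hm, ?_⟩
        rw [← Finset.prod_pow, pow_mul, ← Finset.prod_pow_eq_pow_sum]
        refine Finset.prod_congr rfl fun w _ => ?_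
        by_cases h1 : w.1 = i
        · rw [← pow_mul, ← htor' w h1, ← pow_mul, ← pow_mul]
          congr 1
          ring
        · have h2 : e₁ w = 0 := by
            simp only [he₁]
            rw [if_neg h1]
          rw [h2]
          simp
      · have h1 : (fun w => (e₁ w : ℤ)) = ∑ u : Emb Z, e₁ u • (fun w => if w = u then (1 : ℤ) else 0) := by
          funext w
          rw [Finset.sum_apply]
          simp
        rw [h1]
        refine AddSubgroup.sum_mem _ fun u _ => ?_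
        by_cases h2 : u.1 = i
        · have hpr : ∏ w, eig Z w ^ (if w = u then 1 else 0) = eig Z u := by
            rw [Finset.prod_eq_single u]
            · rw [if_pos rfl, pow_one]
            · intro w _ hw
              rw [if_neg hw, pow_zero]
            · intro h4
              exact absurd (Finset.mem_univ _) h4
          have hsm : ∑ w : Emb Z, (if w = u then 1 else 0 : ℕ) = 1 := by
            rw [Finset.sum_ite_eq' Finset.univ u, if_pos (Finset.mem_univ _)]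
          have hrel : IsRel Z (fun w => if w = u then 1 else 0) := by
            refine ⟨m, hm, ?_⟩
            rw [hpr, hsm, mul_one, pow_mul]
            exact htor' u h2
          have hel : IsElementary Z (fun w => if w = u then 1 else 0) := by
            left
            rw [hsm]
            norm_num
          have hmem : (fun w => if w = u then (1 : ℤ) else 0) ∈ AddSubgroup.closure
              {d : Emb Z → ℤ | ∃ n : Emb Z → ℕ, IsRel Z n ∧ IsElementary Z n ∧ ∀ w, d w = n w} :=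
            AddSubgroup.subset_closure ⟨fun w => if w = u then 1 else 0, hrel, hel, fun w => by
              by_cases h3 : w = u <;> simp [h3]⟩
          exact AddSubgroup.nsmul_mem _ hmem _
        · have h3 : e₁ u = 0 := by
            simp only [he₁]
            rw [if_neg h2]
          rw [h3, zero_smul]
          exact AddSubgroup.zero_mem _
  have hrel₂ := rel_sub he key.1 hadd
  have h2 := hT e₂ hrel₂ (by
    intro w hw
    have h3 : w.1 ≠ i := by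
      intro h4
      apply hw
      simp only [he₂]
      rw [if_pos h4]
    have h4 : e w ≠ 0 := by
      intro h5
      apply hw
      simp only [he₂]
      rw [if_neg h3, h5]
    rcases hsupp w h4 with h5 | h5
    · exact absurd h5 h3
    · exact h5)
  have h3 : (fun w => (e w : ℤ)) = (fun w => (e₁ w : ℤ)) + fun w => (e₂ w : ℤ) := by
    funext w
    rw [Pi.add_apply, hadd]
    push_cast
    rfl
  rw [h3]
  exact AddSubgroup.add_mem _ key.2 h2

theorem elementary_tower {T : Set Z.X.I} (h : IsInertTower Z T) :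
    HasElementaryRelationsOn Z T := by
  induction h with
  | small T hT hT' =>
    refine elementary_good (Or.inr ⟨hT, fun i hi k hk h => ?_⟩)
    by_cases hik : i = k
    · subst hik
      exact Or.inr (Or.inr (Or.inr ⟨RingEquiv.refl _, 1, Nat.one_pos, rfl⟩))
    · exact Or.inl (hT' i hi k hk hik h)
  | add i T _ _ h ih => exact elementary_insert ih h

theorem exists_elementary {Y : RedAV p ν} (hY : IsInertTowerType Y) :
    ∃ Z : RedAV p ν, HasElementaryRelations Z ∧ IsPowersTimesSupersingular Z Y := by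
  obtain ⟨Z, hZ, hY⟩ := hY
  exact ⟨Z, fun e he => elementary_tower hZ e he (fun w _ => Set.mem_univ _), hY⟩

end Pool.Agent.T6.H22.IT
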