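import Mathlib
import Pool.Agent.H977R3.CM.Aut
import Pool.Agent.H204R3.CM.Nondeg

/-!
# Frobenius elements and the complex embeddings of number fields
-/

set_option autoImplicit false

namespace Pool.Agent.T6.H22.IT

open NumberField Module

section frob

variable {L : Type} [Field L] [NumberField L]

/-- `g` is a Frobenius element at the prime `Q` over `ℓ`. -/
structure IsFrob (ℓ : ℕ) (Q : Ideal (𝓞 L)) (g : L ≃ₐ[ℚ] L) : Prop where
  prime : Q.IsPrime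
  mem : (ℓ : 𝓞 L) ∈ Q
  frob : ∀ x : 𝓞 L, g • x - x ^ ℓ ∈ Q

theorem exists_frob [IsGalois ℚ L] (ℓ : ℕ) [Fact ℓ.Prime] :
    ∃ (Q : Ideal (𝓞 L)) (g : L ≃ₐ[ℚ] L), IsFrob ℓ Q g := by
  have hℓ : (ℓ : ℤ) ≠ 0 := by exact_mod_cast (Fact.out : ℓ.Prime).ne_zero
  have hP : (Ideal.span {(ℓ : ℤ)}).IsPrime := by
    rw [Ideal.span_singleton_prime hℓ]
    exact Nat.prime_iff_prime_int.1 (Fact.out : ℓ.Prime)
  obtain ⟨Q, -, hQ, hQP⟩ := Ideal.exists_ideal_over_prime_of_isIntegral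
    (R := ℤ) (S := 𝓞 L) (Ideal.span {(ℓ : ℤ)}) ⊥ (by
      rw [← RingHom.ker_eq_comap_bot, (RingHom.injective_iff_ker_eq_bot _).1
        (FaithfulSMul.algebraMap_injective ℤ (𝓞 L))]
      exact bot_le)
  have hmem : (ℓ : 𝓞 L) ∈ Q := by
    have h1 : (ℓ : ℤ) ∈ Ideal.comap (algebraMap ℤ (𝓞 L)) Q := by
      rw [hQP]
      exact Ideal.mem_span_singleton_self _
    rw [Ideal.mem_comap] at h1
    simpa using h1
  have hQ0 : Q ≠ ⊥ := by
    rintro rfl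
    rw [Ideal.mem_bot] at hmem
    exact (Fact.out : ℓ.Prime).ne_zero (by exact_mod_cast hmem)
  have hfin : Finite (𝓞 L ⧸ Q) := Ideal.finiteQuotientOfFreeOfNeBot Q hQ0
  obtain ⟨g, hg⟩ := IsArithFrobAt.exists_of_isInvariant ℤ (L ≃ₐ[ℚ] L) Q
  refine ⟨Q, g, hQ, hmem, fun x => ?_⟩
  have h1 := hg x
  have h2 : Nat.card (ℤ ⧸ Q.under ℤ) = ℓ := by
    have h3 : Q.under ℤ = Ideal.span {(ℓ : ℤ)} := hQP
    rw [h3, Nat.card_congr (Int.quotientSpanNatEquivZMod ℓ).toEquiv, Nat.card_zmod]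
  rw [h2] at h1
  exact h1

variable {ℓ : ℕ} {Q : Ideal (𝓞 L)} {g : L ≃ₐ[ℚ] L}

theorem IsFrob.pow_smul (h : IsFrob ℓ Q g) (m : ℕ) (x : 𝓞 L) :
    (g ^ m) • x - x ^ ℓ ^ m ∈ Q := by
  induction m with
  | zero => simp
  | succ m ih =>
    rw [pow_succ', mul_smul]
    have h1 := h.frob ((g ^ m) • x)
    have h2 : ((g ^ m) • x) ^ ℓ - (x ^ ℓ ^ m) ^ ℓ ∈ Q :=
      Q.mem_of_dvd (sub_dvd_pow_sub_pow _ _ ℓ) ih
    rw [← pow_mul, ← pow_succ] at h2
    have h3 := Q.add_mem h1 h2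
    convert h3 using 1
    ring

variable {K : Type} [Field K] [NumberField K]

/-- The map of the rings of integers. -/
noncomputable abbrev mp (φ : K →+* L) : 𝓞 K →+* 𝓞 L := RingOfIntegers.mapRingHom φ

theorem mp_smul (φ : K →+* L) (g : L ≃ₐ[ℚ] L) (x : 𝓞 K) :
    g • mp φ x = mp ((g : L →+* L).comp φ) x := by
  apply RingOfIntegers.ext
  rfl

/-- If `ℓ` is inert in `K` then the Frobenius element has a long orbit on the embeddings. -/
theorem IsFrob.le_of_fix (h : IsFrob ℓ Q g) (hℓ : ℓ.Prime)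
    (hK : (Ideal.span {(ℓ : 𝓞 K)}).IsPrime) (φ : K →+* L) {d : ℕ} (hd0 : d ≠ 0)
    (hφ : ((g ^ d : L ≃ₐ[ℚ] L) : L →+* L).comp φ = φ) : finrank ℚ K ≤ d := by
  classical
  have hℓ0 : (ℓ : 𝓞 K) ≠ 0 := by exact_mod_cast hℓ.ne_zero
  have hne : Ideal.span {(ℓ : 𝓞 K)} ≠ ⊥ := by
    rw [Ne, Ideal.span_singleton_eq_bot]
    exact hℓ0
  have hmax : (Ideal.span {(ℓ : 𝓞 K)}).IsMaximal := hK.isMaximal hne
  have hQp := h.prime
  have hcomap : Q.comap (mp φ) = Ideal.span {(ℓ : 𝓞 K)} := by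
    symm
    apply hmax.eq_of_le (Ideal.IsPrime.ne_top (Ideal.comap_isPrime _ _))
    rw [Ideal.span_singleton_le_iff_mem, Ideal.mem_comap, map_natCast]
    exact h.mem
  have hpow : ∀ x : 𝓞 K, x ^ ℓ ^ d - x ∈ Ideal.span {(ℓ : 𝓞 K)} := by
    intro x
    rw [← hcomap, Ideal.mem_comap, map_sub, map_pow]
    have h1 := h.pow_smul d (mp φ x)
    rw [mp_smul, hφ] at h1
    rw [← neg_mem_iff]
    convert h1 using 1
    ring
  have hfin : Finite (𝓞 K ⧸ Ideal.span {(ℓ : 𝓞 K)}) := Ideal.finiteQuotientOfFreeOfNeBot _ hne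
  let _ : Fintype (𝓞 K ⧸ Ideal.span {(ℓ : 𝓞 K)}) := Fintype.ofFinite _
  let _ : Field (𝓞 K ⧸ Ideal.span {(ℓ : 𝓞 K)}) := Ideal.Quotient.field _
  have hcard : Nat.card (𝓞 K ⧸ Ideal.span {(ℓ : 𝓞 K)}) = ℓ ^ finrank ℚ K := by
    have h1 := Ideal.absNorm_span_natCast (S := 𝓞 K) ℓ
    rw [RingOfIntegers.rank] at h1
    exact h1
  have hroots : ∀ y : 𝓞 K ⧸ Ideal.span {(ℓ : 𝓞 K)},
      y ∈ (Polynomial.X ^ ℓ ^ d - Polynomial.X :
        Polynomial (𝓞 K ⧸ Ideal.span {(ℓ : 𝓞 K)})).roots.toFinset := by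
    intro y
    obtain ⟨x, rfl⟩ := Ideal.Quotient.mk_surjective y
    rw [Multiset.mem_toFinset, Polynomial.mem_roots
      (FiniteField.X_pow_card_sub_X_ne_zero _ (Nat.one_lt_pow hd0 hℓ.one_lt))]
    rw [Polynomial.IsRoot, Polynomial.eval_sub, Polynomial.eval_pow, Polynomial.eval_X,
      ← map_pow, ← map_sub]
    exact Ideal.Quotient.eq_zero_iff_mem.2 (hpow x)
  have h2 : Fintype.card (𝓞 K ⧸ Ideal.span {(ℓ : 𝓞 K)}) ≤ ℓ ^ d := by
    calc Fintype.card (𝓞 K ⧸ Ideal.span {(ℓ : 𝓞 K)})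
        = (Finset.univ : Finset (𝓞 K ⧸ Ideal.span {(ℓ : 𝓞 K)})).card := rfl
      _ ≤ (Polynomial.X ^ ℓ ^ d - Polynomial.X :
            Polynomial (𝓞 K ⧸ Ideal.span {(ℓ : 𝓞 K)})).roots.toFinset.card :=
          Finset.card_le_card fun y _ => hroots y
      _ ≤ _ := Multiset.toFinset_card_le _
      _ ≤ (Polynomial.X ^ ℓ ^ d - Polynomial.X :
            Polynomial (𝓞 K ⧸ Ideal.span {(ℓ : 𝓞 K)})).natDegree :=
          Polynomial.card_roots' _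
      _ = ℓ ^ d := FiniteField.X_pow_card_sub_X_natDegree_eq _
          (Nat.one_lt_pow hd0 hℓ.one_lt)
  rw [← Nat.card_eq_fintype_card, hcard] at h2
  exact (Nat.pow_le_pow_iff_right hℓ.one_lt).1 h2

/-- Two congruent embeddings of a field in which `ℓ` is unramified are equal. -/
theorem eq_of_congr (hQ : Q.IsPrime) (hmem : (ℓ : 𝓞 L) ∈ Q) (hℓ : ℓ.Prime)
    (hK : ¬ (ℓ : ℤ) ∣ discr K) (j : L →+* ℂ)
    (hj : ∀ ψ : K →+* ℂ, ∃ φ : K →+* L, j.comp φ = ψ) {φ ψ : K →+* L}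
    (h : ∀ x : 𝓞 K, mp φ x - mp ψ x ∈ Q) : φ = ψ := by
  classical
  by_contra hne
  let b := RingOfIntegers.basis K
  let bQ : Basis _ ℚ K := integralBasis K
  choose lift hlift using hj
  have e : Free.ChooseBasisIndex ℤ (𝓞 K) ≃ (K →ₐ[ℚ] ℂ) := by
    apply Fintype.equivOfCardEq
    rw [← finrank_eq_card_basis bQ, AlgHom.card]
  have hdisc := Algebra.discr_eq_det_embeddingsMatrixReindex_pow_two ℚ ℂ bQ e
  let M : Matrix (Free.ChooseBasisIndex ℤ (𝓞 K)) (Free.ChooseBasisIndex ℤ (𝓞 K)) (𝓞 L) :=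
    fun a c => mp (lift (e c : K →+* ℂ)) (b a)
  let J : 𝓞 L →+* ℂ := j.comp (algebraMap (𝓞 L) L)
  have hJ : Function.Injective J := j.injective.comp RingOfIntegers.coe_injective
  have hM : Algebra.embeddingsMatrixReindex ℚ ℂ bQ e = M.map J := by
    ext a c
    rw [Algebra.embeddingsMatrixReindex, Matrix.reindex_apply, Matrix.submatrix_apply,
      Algebra.embeddingsMatrix_apply, Matrix.map_apply]
    have h1 : (e c : K →+* ℂ) (bQ a) = j (lift (e c : K →+* ℂ) (bQ a)) := by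
      conv_lhs => rw [← hlift (e c : K →+* ℂ)]
      rfl
    have h2 : bQ a = (b a : K) := integralBasis_apply K a
    rw [h2] at h1
    change (e c) (bQ a) = _
    rw [h2]
    exact h1
  have hdet : ((discr K : ℤ) : 𝓞 L) = M.det ^ 2 := by
    apply hJ
    rw [map_intCast, map_pow, RingHom.map_det]
    have h1 : (RingHom.mapMatrix J) M = M.map J := rfl
    rw [h1, ← hM, ← hdisc, ← coe_discr]
    simp
  have hdetQ : M.det ∈ Q := by
    have hφ : ∃ c, lift (e c : K →+* ℂ) = φ := by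
      refine ⟨e.symm (RingHom.equivRatAlgHom K ℂ (j.comp φ)), ?_⟩
      have h1 : ((e (e.symm (RingHom.equivRatAlgHom K ℂ (j.comp φ))) : K →ₐ[ℚ] ℂ) : K →+* ℂ) =
          j.comp φ := by
        rw [Equiv.apply_symm_apply]
        rfl
      have h2 := hlift ((e (e.symm (RingHom.equivRatAlgHom K ℂ (j.comp φ))) : K →ₐ[ℚ] ℂ) : K →+* ℂ)
      rw [h1] at h2 ⊢
      ext x
      exact j.injective (RingHom.congr_fun h2 x)
    have hψ : ∃ c, lift (e c : K →+* ℂ) = ψ := by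
      refine ⟨e.symm (RingHom.equivRatAlgHom K ℂ (j.comp ψ)), ?_⟩
      have h1 : ((e (e.symm (RingHom.equivRatAlgHom K ℂ (j.comp ψ))) : K →ₐ[ℚ] ℂ) : K →+* ℂ) =
          j.comp ψ := by
        rw [Equiv.apply_symm_apply]
        rfl
      have h2 := hlift ((e (e.symm (RingHom.equivRatAlgHom K ℂ (j.comp ψ))) : K →ₐ[ℚ] ℂ) : K →+* ℂ)
      rw [h1] at h2 ⊢
      ext x
      exact j.injective (RingHom.congr_fun h2 x)
    obtain ⟨c, hc⟩ := hφ
    obtain ⟨c', hc'⟩ := hψ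
    have hcc : c ≠ c' := by
      rintro rfl
      exact hne (hc.symm.trans hc')
    rw [← Ideal.Quotient.eq_zero_iff_mem, RingHom.map_det]
    apply Matrix.det_zero_of_column_eq hcc
    intro a
    rw [RingHom.mapMatrix_apply, Matrix.map_apply, Matrix.map_apply, Ideal.Quotient.eq]
    have h1 := h (b a)
    rw [← hc, ← hc'] at h1
    exact h1
  have h1 : ((discr K : ℤ) : 𝓞 L) ∈ Q := by
    rw [hdet]
    exact Q.pow_mem_of_mem hdetQ 2 (by norm_num)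
  -- `Q ∩ ℤ = ℓ ℤ`
  apply hK
  by_contra hnd
  have hcop : IsCoprime (ℓ : ℤ) (discr K) := by
    rw [Prime.coprime_iff_not_dvd (Nat.prime_iff_prime_int.1 hℓ)]
    exact hnd
  obtain ⟨u, v, huv⟩ := hcop
  apply hQ.ne_top
  rw [Ideal.eq_top_iff_one]
  have h2 : (1 : 𝓞 L) = (u : 𝓞 L) * (ℓ : 𝓞 L) + (v : 𝓞 L) * ((discr K : ℤ) : 𝓞 L) := by
    have h3 := congrArg (Int.cast : ℤ → 𝓞 L) huv
    push_cast at h3
    exact h3.symm
  rw [h2]
  exact Q.add_mem (Q.mul_mem_left _ hmem) (Q.mul_mem_left _ h1)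

/-- In the unramified case the order of the Frobenius element on an embedding divides the residue
degree. -/
theorem IsFrob.fix_of_card (h : IsFrob ℓ Q g) (hℓ : ℓ.Prime) (hK : ¬ (ℓ : ℤ) ∣ discr K)
    (j : L →+* ℂ) (hj : ∀ ψ : K →+* ℂ, ∃ φ : K →+* L, j.comp φ = ψ) (φ : K →+* L) {f : ℕ}
    (hf : Nat.card (𝓞 K ⧸ Q.comap (mp φ)) = ℓ ^ f) :
    ((g ^ f : L ≃ₐ[ℚ] L) : L →+* L).comp φ = φ := by
  classical
  have hQp := h.prime
  refine eq_of_congr h.prime h.mem hℓ hK j hj fun x => ?_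
  rw [← mp_smul]
  have hPp : (Q.comap (mp φ)).IsPrime := Ideal.comap_isPrime _ _
  have hne : Q.comap (mp φ) ≠ ⊥ := by
    intro h0
    have h1 : (ℓ : 𝓞 K) ∈ Q.comap (mp φ) := by
      rw [Ideal.mem_comap, map_natCast]
      exact h.mem
    rw [h0, Ideal.mem_bot] at h1
    exact hℓ.ne_zero (by exact_mod_cast h1)
  have hmax : (Q.comap (mp φ)).IsMaximal := hPp.isMaximal hne
  have hfin : Finite (𝓞 K ⧸ Q.comap (mp φ)) := Ideal.finiteQuotientOfFreeOfNeBot _ hne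
  let _ : Fintype (𝓞 K ⧸ Q.comap (mp φ)) := Fintype.ofFinite _
  let _ : Field (𝓞 K ⧸ Q.comap (mp φ)) := Ideal.Quotient.field _
  have h1 : x ^ ℓ ^ f - x ∈ Q.comap (mp φ) := by
    rw [← Ideal.Quotient.eq, map_pow, ← hf, Nat.card_eq_fintype_card]
    exact FiniteField.pow_card _
  rw [Ideal.mem_comap, map_sub, map_pow] at h1
  have h2 := Q.add_mem (h.pow_smul f (mp φ x)) h1
  convert h2 using 1
  ring

end frob

end Pool.Agent.T6.H22.IT
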